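import Mathlib
import Pool.Agent.H724R3.N.Stmts
import Pool.Agent.H724R3.N.TFinal

set_option autoImplicit false

/-! Averaging of operators into dual bimodules over an amenable Banach algebra. -/

namespace Pool.Agent.Y464.AM

open Filter Topology Pool.Agent.Helper832.GS Pool.Agent.H724R3.N Pool.Agent.H724R3.N.TFin

noncomputable section

/-- `m` is a bounded approximate diagonal of `D` along `U` (in the weak form). -/
structure IsDiag {D : Type} [NormedRing D] [NormedAlgebra ℂ D] {J : Type} (U : Ultrafilter J)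
    (m : J → Finset (D × D)) (C : ℝ) : Prop where
  bdd : ∀ j, ∑ p ∈ m j, ‖p.1‖ * ‖p.2‖ ≤ C
  comm : ∀ (B : D →L[ℂ] D →L[ℂ] ℂ) (c : D),
    Tendsto (fun j => ∑ p ∈ m j, (B (c * p.1) p.2 - B p.1 (p.2 * c))) U (𝓝 0)
  unit : ∀ ψ : D →L[ℂ] ℂ, Tendsto (fun j => ψ (∑ p ∈ m j, p.1 * p.2)) U (𝓝 (ψ 1))

/-- The Banach algebra `D` (with unit) is amenable. -/
def IsAmen (D : Type) [NormedRing D] [NormedAlgebra ℂ D] : Prop :=
  ∃ (J : Type) (U : Ultrafilter J) (m : J → Finset (D × D)) (C : ℝ), IsDiag U m C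

/-- `lam d + η d` is a unital homomorphism of `D` to the unitization of `A`. -/
structure IsUHom {D A : Type} [NormedRing D] [NormedAlgebra ℂ D] [NonUnitalNormedRing A] [NormedSpace ℂ A]
    (lam : D →L[ℂ] ℂ) (η : D →L[ℂ] A) : Prop where
  lam_one : lam 1 = 1
  eta_one : η 1 = 0
  lam_mul : ∀ c d, lam (c * d) = lam c * lam d
  eta_mul : ∀ c d, η (c * d) = lam c • η d + lam d • η c + η c * η d

section act

variable {D A : Type} [NormedRing D] [NormedAlgebra ℂ D] [NonUnitalNormedRing A] [NormedSpace ℂ A]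
  {X : Type} [NormedAddCommGroup X] [NormedSpace ℂ X]

/-- the action `x ↦ lam(d) x + l(η(d)) x` -/
def act (lam : D →L[ℂ] ℂ) (η : D →L[ℂ] A) (l : A →L[ℂ] X →L[ℂ] X) : D →L[ℂ] X →L[ℂ] X :=
  lam.smulRight (ContinuousLinearMap.id ℂ X) + l.comp η

variable {lam : D →L[ℂ] ℂ} {η : D →L[ℂ] A}

theorem act_apply (l : A →L[ℂ] X →L[ℂ] X) (d : D) (x : X) :
    act lam η l d x = lam d • x + l (η d) x := rfl

theorem act_one (hh : IsUHom lam η) (l : A →L[ℂ] X →L[ℂ] X) (x : X) : act lam η l 1 x = x := by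
  rw [act_apply, hh.lam_one, hh.eta_one, map_zero, one_smul, ContinuousLinearMap.zero_apply, add_zero]

theorem act_mul (hh : IsUHom lam η) (l : A →L[ℂ] X →L[ℂ] X) (hl : ∀ a b x, l (a * b) x = l a (l b x)) (c d : D)
    (x : X) : act lam η l (c * d) x = act lam η l c (act lam η l d x) := by
  rw [act_apply, act_apply, act_apply, hh.lam_mul, hh.eta_mul, map_add, map_add, map_smul, map_smul]
  show (lam c * lam d) • x + (lam c • l (η d) x + lam d • l (η c) x + l (η c * η d) x) =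
    lam c • (lam d • x + l (η d) x) + l (η c) (lam d • x + l (η d) x)
  rw [hl, smul_add, mul_smul, map_add, map_smul]
  abel

theorem act_mul' (hh : IsUHom lam η) (r : A →L[ℂ] X →L[ℂ] X) (hr : ∀ a b x, r (a * b) x = r b (r a x)) (c d : D)
    (x : X) : act lam η r (c * d) x = act lam η r d (act lam η r c x) := by
  rw [act_apply, act_apply, act_apply, hh.lam_mul, hh.eta_mul, map_add, map_add, map_smul, map_smul]
  show (lam c * lam d) • x + (lam c • r (η d) x + lam d • r (η c) x + r (η c * η d) x) =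
    lam d • (lam c • x + r (η c) x) + r (η d) (lam c • x + r (η c) x)
  rw [hr, smul_add, mul_comm (lam c), mul_smul, map_add, map_smul]
  abel

theorem act_comm (l r : A →L[ℂ] X →L[ℂ] X) (hlr : ∀ a b x, l a (r b x) = r b (l a x)) (c d : D) (x : X) :
    act lam η l c (act lam η r d x) = act lam η r d (act lam η l c x) := by
  simp only [act_apply, map_add, map_smul, smul_add, hlr]
  rw [smul_comm (lam d) (lam c)]
  abel

end act

variable {A ι : Type} [NonUnitalNormedRing A] [NormedSpace ℂ A] {D : Type} [NormedRing D] [NormedAlgebra ℂ D]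

theorem uniq (P : Pr A ι) {x x' : P.X} (h : ∀ φ ∈ P.N, φ x = φ x') : x = x' := by
  have := P.N_sep (x - x') fun φ hφ => by rw [map_sub, h φ hφ, sub_self]
  exact sub_eq_zero.1 this

/-- Existence of the averages. -/
theorem exists_avg (P : Pr A ι) {J : Type} (U : Ultrafilter J) (m : J → Finset (D × D)) (C : ℝ)
    (f g : D × D → D) (hC : ∀ j, ∑ p ∈ m j, ‖f p‖ * ‖g p‖ ≤ C)
    {Q : Type} [NormedAddCommGroup Q] [NormedSpace ℂ Q] (L : D →L[ℂ] Q →L[ℂ] Q)
    (L' : D →L[ℂ] P.X →L[ℂ] P.X) (T : Q →L[ℂ] P.X) :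
    ∃ T' : Q →L[ℂ] P.X, ∀ q, ∀ φ ∈ P.N,
      Tendsto (fun j => ∑ p ∈ m j, φ (L' (f p) (T (L (g p) q)))) U (𝓝 (φ (T' q))) := by
  obtain ⟨v, hv⟩ : ∃ v : J → Q → P.X, ∀ j q, v j q = ∑ p ∈ m j, L' (f p) (T (L (g p) q)) := ⟨_, fun _ _ => rfl⟩
  have hb : ∀ q j, ‖v j q‖ ≤ (‖L'‖ * ‖T‖ * ‖L‖ * C) * ‖q‖ := by
    intro q j
    rw [hv]
    calc ‖∑ p ∈ m j, L' (f p) (T (L (g p) q))‖ ≤ ∑ p ∈ m j, ‖L' (f p) (T (L (g p) q))‖ := norm_sum_le _ _
      _ ≤ ∑ p ∈ m j, (‖L'‖ * ‖T‖ * ‖L‖ * ‖q‖) * (‖f p‖ * ‖g p‖) := by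
          refine Finset.sum_le_sum fun p _ => ?_
          calc ‖L' (f p) (T (L (g p) q))‖ ≤ (‖L'‖ * ‖f p‖) * (‖T‖ * ((‖L‖ * ‖g p‖) * ‖q‖)) := by
                refine (L'.le_opNorm₂ _ _).trans ?_
                refine mul_le_mul_of_nonneg_left ?_ (by positivity)
                refine (T.le_opNorm _).trans ?_
                exact mul_le_mul_of_nonneg_left (L.le_opNorm₂ _ _) (norm_nonneg _)
            _ = (‖L'‖ * ‖T‖ * ‖L‖ * ‖q‖) * (‖f p‖ * ‖g p‖) := by ring
      _ = (‖L'‖ * ‖T‖ * ‖L‖ * ‖q‖) * ∑ p ∈ m j, ‖f p‖ * ‖g p‖ := by rw [Finset.mul_sum]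
      _ ≤ (‖L'‖ * ‖T‖ * ‖L‖ * ‖q‖) * C := mul_le_mul_of_nonneg_left (hC j) (by positivity)
      _ = (‖L'‖ * ‖T‖ * ‖L‖ * C) * ‖q‖ := by ring
  choose y hyn hy using fun q => P.cptX J U (fun j => v j q) ((‖L'‖ * ‖T‖ * ‖L‖ * C) * ‖q‖) (hb q)
  have hadd : ∀ q q', y (q + q') = y q + y q' := by
    intro q q'
    refine uniq P fun φ hφ => ?_
    have h1 := hy (q + q') φ hφ
    have h2 := (hy q φ hφ).add (hy q' φ hφ)
    have e : ∀ j, φ (v j (q + q')) = φ (v j q) + φ (v j q') := by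
      intro j
      rw [← map_add]
      congr 1
      simp only [hv, map_add, Finset.sum_add_distrib]
    simp only [e] at h1
    rw [map_add]
    exact tendsto_nhds_unique h1 h2
  have hsmul : ∀ (c : ℂ) q, y (c • q) = c • y q := by
    intro c q
    refine uniq P fun φ hφ => ?_
    have h1 := hy (c • q) φ hφ
    have h2 := (hy q φ hφ).const_mul c
    have e : ∀ j, φ (v j (c • q)) = c * φ (v j q) := by
      intro j
      rw [← smul_eq_mul, ← map_smul]
      congr 1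
      simp only [hv, map_smul, ← Finset.smul_sum]
    simp only [e] at h1
    rw [map_smul, smul_eq_mul]
    exact tendsto_nhds_unique h1 h2
  refine ⟨LinearMap.mkContinuous { toFun := y, map_add' := hadd, map_smul' := fun c q => hsmul c q } _ hyn,
    fun q φ hφ => ?_⟩
  have h := hy q φ hφ
  have e : ∀ j, φ (v j q) = ∑ p ∈ m j, φ (L' (f p) (T (L (g p) q))) := fun j => by rw [hv, map_sum]
  simp only [e] at h
  exact h

/-- the bilinear form `(x, y) ↦ φ (L' x (T (L y q)))` -/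
def bil {Q X : Type} [NormedAddCommGroup Q] [NormedSpace ℂ Q] [NormedAddCommGroup X] [NormedSpace ℂ X]
    (L : D →L[ℂ] Q →L[ℂ] Q) (L' : D →L[ℂ] X →L[ℂ] X) (T : Q →L[ℂ] X) (φ : X →L[ℂ] ℂ) (q : Q) :
    D →L[ℂ] D →L[ℂ] ℂ :=
  ((ContinuousLinearMap.compL ℂ D X ℂ).flip (T.comp (L.flip q))).comp
    ((ContinuousLinearMap.compL ℂ X X ℂ φ).comp L')

theorem bil_apply {Q X : Type} [NormedAddCommGroup Q] [NormedSpace ℂ Q] [NormedAddCommGroup X] [NormedSpace ℂ X]
    (L : D →L[ℂ] Q →L[ℂ] Q) (L' : D →L[ℂ] X →L[ℂ] X) (T : Q →L[ℂ] X) (φ : X →L[ℂ] ℂ) (q : Q) (x y : D) :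
    bil L L' T φ q x y = φ (L' x (T (L y q))) := rfl

variable {lam : D →L[ℂ] ℂ} {η : D →L[ℂ] A}

/-- limits along normal functionals are preserved by the action -/
theorem tendsto_act (P : Pr A ι) {J : Type} {U : Ultrafilter J} (s : A →L[ℂ] P.X →L[ℂ] P.X)
    (hs : ∀ φ ∈ P.N, ∀ a, φ ∘L s a ∈ P.N) (x : J → (P.X →L[ℂ] ℂ) → ℂ)
    (hx : ∀ j φ ψ (z : ℂ), x j (z • φ + ψ) = z * x j φ + x j ψ) (y : P.X)
    (h : ∀ φ ∈ P.N, Tendsto (fun j => x j φ) U (𝓝 (φ y))) (c : D) :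
    ∀ φ ∈ P.N, Tendsto (fun j => x j (φ ∘L act lam η s c)) U (𝓝 (φ (act lam η s c y))) := by
  intro φ hφ
  have h1 := ((h φ hφ).const_mul (lam c)).add (h _ (hs φ hφ (η c)))
  have e : ∀ j, x j (φ ∘L act lam η s c) = lam c * x j φ + x j (φ ∘L s (η c)) := by
    intro j
    rw [← hx]
    congr 1
    ext z
    show φ (act lam η s c z) = lam c • φ z + φ (s (η c) z)
    rw [act_apply, map_add, map_smul]
  simp only [e]
  have e2 : φ (act lam η s c y) = lam c * φ y + (φ ∘L s (η c)) y := by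
    rw [act_apply, map_add, map_smul]
    rfl
  rw [e2]
  exact h1

theorem right_avg (hh : IsUHom lam η) {J : Type} {U : Ultrafilter J} {m : J → Finset (D × D)} {C : ℝ}
    (hm : IsDiag U m C) (P : Pr A ι) (Q : BMod A) (T : Q.carrier →L[ℂ] P.X) :
    ∃ T' : Q.carrier →L[ℂ] P.X, (∀ d q, T' (act lam η (rQ Q) d q) = act lam η P.r d (T' q)) ∧
      ∀ q, (∀ d, T (act lam η (rQ Q) d q) = act lam η P.r d (T q)) → T' q = T q := by
  obtain ⟨T', hT'⟩ := exists_avg P U m C (fun p => p.2) (fun p => p.1)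
    (fun j => by simpa only [mul_comm] using hm.bdd j) (act lam η (rQ Q)) (act lam η P.r) T
  refine ⟨T', fun c q => ?_, fun q hq => ?_⟩
  · refine uniq P fun φ hφ => ?_
    have h1 := hT' (act lam η (rQ Q) c q) φ hφ
    have h2 := tendsto_act (lam := lam) (η := η) P P.r P.N_r
      (fun j ψ => ∑ p ∈ m j, ψ (act lam η P.r p.2 (T (act lam η (rQ Q) p.1 q))))
      (fun j φ ψ z => by
        rw [Finset.mul_sum, ← Finset.sum_add_distrib]
        exact Finset.sum_congr rfl fun p _ => rfl) (T' q) (fun ψ hψ => hT' q ψ hψ) c φ hφ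
    have h3 := hm.comm (bil (act lam η (rQ Q)) (act lam η P.r) T φ q).flip c
    refine sub_eq_zero.1 (tendsto_nhds_unique (h1.sub h2) (h3.congr fun j => ?_))
    rw [← Finset.sum_sub_distrib]
    refine Finset.sum_congr rfl fun p _ => ?_
    show bil (act lam η (rQ Q)) (act lam η P.r) T φ q p.2 (c * p.1) -
      bil (act lam η (rQ Q)) (act lam η P.r) T φ q (p.2 * c) p.1 = _
    rw [bil_apply, bil_apply, act_mul' hh (rQ Q) (rQ_mul Q), act_mul' hh P.r P.r_mul]
    rfl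
  · refine uniq P fun φ hφ => ?_
    have h1 := hT' q φ hφ
    have h2 := hm.unit (((ContinuousLinearMap.compL ℂ P.X P.X ℂ φ).comp (act lam η P.r)).flip (T q))
    have h3 : (((ContinuousLinearMap.compL ℂ P.X P.X ℂ φ).comp (act lam η P.r)).flip (T q)) (1 : D) = φ (T q) := by
      show φ (act lam η P.r 1 (T q)) = _
      rw [act_one hh]
    rw [h3] at h2
    refine tendsto_nhds_unique h1 (h2.congr fun j => ?_)
    rw [map_sum]
    refine Finset.sum_congr rfl fun p _ => ?_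
    show φ (act lam η P.r (p.1 * p.2) (T q)) = φ (act lam η P.r p.2 (T (act lam η (rQ Q) p.1 q)))
    rw [hq, act_mul' hh P.r P.r_mul]

theorem left_avg (hh : IsUHom lam η) {J : Type} {U : Ultrafilter J} {m : J → Finset (D × D)} {C : ℝ}
    (hm : IsDiag U m C) (P : Pr A ι) (Q : BMod A) (T : Q.carrier →L[ℂ] P.X)
    (hT : ∀ d q, T (act lam η (rQ Q) d q) = act lam η P.r d (T q)) :
    ∃ T' : Q.carrier →L[ℂ] P.X, (∀ d q, T' (act lam η (rQ Q) d q) = act lam η P.r d (T' q)) ∧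
      (∀ d q, T' (act lam η (lQ Q) d q) = act lam η P.l d (T' q)) ∧
      ∀ q, (∀ d, T (act lam η (lQ Q) d q) = act lam η P.l d (T q)) → T' q = T q := by
  obtain ⟨T', hT'⟩ := exists_avg P U m C (fun p => p.1) (fun p => p.2) hm.bdd (act lam η (lQ Q)) (act lam η P.l) T
  refine ⟨T', fun c q => ?_, fun c q => ?_, fun q hq => ?_⟩
  · refine uniq P fun φ hφ => ?_
    have h1 := hT' (act lam η (rQ Q) c q) φ hφ
    have h2 := tendsto_act (lam := lam) (η := η) P P.r P.N_r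
      (fun j ψ => ∑ p ∈ m j, ψ (act lam η P.l p.1 (T (act lam η (lQ Q) p.2 q))))
      (fun j φ ψ z => by
        rw [Finset.mul_sum, ← Finset.sum_add_distrib]
        exact Finset.sum_congr rfl fun p _ => rfl) (T' q) (fun ψ hψ => hT' q ψ hψ) c φ hφ
    refine tendsto_nhds_unique h1 (h2.congr fun j => ?_)
    refine Finset.sum_congr rfl fun p _ => ?_
    show φ (act lam η P.r c (act lam η P.l p.1 (T (act lam η (lQ Q) p.2 q)))) =
      φ (act lam η P.l p.1 (T (act lam η (lQ Q) p.2 (act lam η (rQ Q) c q))))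
    rw [act_comm (lQ Q) (rQ Q) (lrQ Q), hT, act_comm P.l P.r P.lr]
  · refine uniq P fun φ hφ => ?_
    have h1 := hT' (act lam η (lQ Q) c q) φ hφ
    have h2 := tendsto_act (lam := lam) (η := η) P P.l P.N_l
      (fun j ψ => ∑ p ∈ m j, ψ (act lam η P.l p.1 (T (act lam η (lQ Q) p.2 q))))
      (fun j φ ψ z => by
        rw [Finset.mul_sum, ← Finset.sum_add_distrib]
        exact Finset.sum_congr rfl fun p _ => rfl) (T' q) (fun ψ hψ => hT' q ψ hψ) c φ hφ
    have h3 := hm.comm (bil (act lam η (lQ Q)) (act lam η P.l) T φ q) c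
    refine (sub_eq_zero.1 (tendsto_nhds_unique (h2.sub h1) (h3.congr fun j => ?_))).symm
    rw [← Finset.sum_sub_distrib]
    refine Finset.sum_congr rfl fun p _ => ?_
    rw [bil_apply, bil_apply, act_mul hh (lQ Q) (lQ_mul Q), act_mul hh P.l P.l_mul]
    rfl
  · refine uniq P fun φ hφ => ?_
    have h1 := hT' q φ hφ
    have h2 := hm.unit (((ContinuousLinearMap.compL ℂ P.X P.X ℂ φ).comp (act lam η P.l)).flip (T q))
    have h3 : (((ContinuousLinearMap.compL ℂ P.X P.X ℂ φ).comp (act lam η P.l)).flip (T q)) (1 : D) = φ (T q) := by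
      show φ (act lam η P.l 1 (T q)) = _
      rw [act_one hh]
    rw [h3] at h2
    refine tendsto_nhds_unique h1 (h2.congr fun j => ?_)
    rw [map_sum]
    refine Finset.sum_congr rfl fun p _ => ?_
    show φ (act lam η P.l (p.1 * p.2) (T q)) = φ (act lam η P.l p.1 (T (act lam η (lQ Q) p.2 q)))
    rw [hq, act_mul hh P.l P.l_mul]

end

end Pool.Agent.Y464.AM
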