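import Mathlib
import Pool.Agent.Y464.AM.Avg

set_option autoImplicit false

/-! From a tower of pairs to the bidimension, for an amenable Banach algebra acting without invariants. -/

namespace Pool.Agent.Y464.AM

open Filter Topology Pool.Agent.Helper832.GS Pool.Agent.H724R3.N Pool.Agent.H724R3.N.TFin

noncomputable section

variable {A : Type} [NonUnitalNormedRing A] [NormedSpace ℂ A] {D : Type} [NormedRing D] [NormedAlgebra ℂ D]
  {lam : D →L[ℂ] ℂ} {η : D →L[ℂ] A} {ι : Type}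

theorem hom_L {P Q : BMod A} {f : P.carrier → Q.carrier} (hf : BMod.IsHom P Q f) (d : D) (p : P.carrier) :
    f (act lam η (lQ P) d p) = act lam η (lQ Q) d (f p) := by
  obtain ⟨h1, h2, h3⟩ := hf
  rw [act_apply, act_apply, h1.toIsLinearMap.map_add, h1.toIsLinearMap.map_smul, lQ_apply, h2]
  rfl

theorem hom_R {P Q : BMod A} {f : P.carrier → Q.carrier} (hf : BMod.IsHom P Q f) (d : D) (p : P.carrier) :
    f (act lam η (rQ P) d p) = act lam η (rQ Q) d (f p) := by
  obtain ⟨h1, h2, h3⟩ := hf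
  rw [act_apply, act_apply, h1.toIsLinearMap.map_add, h1.toIsLinearMap.map_smul, rQ_apply, h3]
  rfl

/-- bimodule maps over `D` -/
def Eqv2 (lam : D →L[ℂ] ℂ) (η : D →L[ℂ] A) (Q : BMod A) (P : Pr A ι) (ψ : Q.carrier →L[ℂ] P.X) : Prop :=
  (∀ d q, ψ (act lam η (lQ Q) d q) = act lam η P.l d (ψ q)) ∧
    ∀ d q, ψ (act lam η (rQ Q) d q) = act lam η P.r d (ψ q)

theorem eqv2_hom {Q : BMod A} {P : Pr A ι} {f : Q.carrier →L[ℂ] P.X} (hf : BMod.IsHom Q (XB P) f) :
    Eqv2 lam η Q P f :=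
  ⟨fun d q => hom_L hf d q, fun d q => hom_R hf d q⟩

theorem avg_step2 (hh : IsUHom lam η) {J : Type} {U : Ultrafilter J} {m : J → Finset (D × D)} {C : ℝ}
    (hm : IsDiag U m C) (P : Pr A ι) (Q B : BMod A) (dd : B.carrier → Q.carrier) (hd : BMod.IsHom B Q dd)
    (θ : B.carrier →L[ℂ] P.X) (hθ : Eqv2 lam η B P θ) (T : Q.carrier →L[ℂ] P.X) (hT : ∀ x, T (dd x) = θ x) :
    ∃ ψ : Q.carrier →L[ℂ] P.X, Eqv2 lam η Q P ψ ∧ ∀ x, ψ (dd x) = θ x := by
  obtain ⟨T1, h1, h2⟩ := right_avg hh hm P Q T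
  have h3 : ∀ x, T1 (dd x) = θ x := by
    intro x
    rw [h2, hT]
    intro d
    rw [← hom_R hd, hT, hT, hθ.2]
  obtain ⟨T2, h4, h5, h6⟩ := left_avg hh hm P Q T1 h1
  refine ⟨T2, ⟨h5, h4⟩, fun x => ?_⟩
  rw [h6, h3]
  intro d
  rw [← hom_L hd, h3, h3, hθ.1]


theorem eqv2_sub {Q : BMod A} {P P' : Pr A ι} (dd : P'.X →L[ℂ] P.X)
    (hl : ∀ b x, dd (P'.l b x) = P.l b (dd x)) (hr : ∀ b x, dd (P'.r b x) = P.r b (dd x))
    {f : Q.carrier →L[ℂ] P.X} {ψ : Q.carrier →L[ℂ] P'.X} (hf : Eqv2 lam η Q P f)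
    (hψ : Eqv2 lam η Q P' ψ) : Eqv2 lam η Q P (f - dd.comp ψ) := by
  constructor
  · intro d q
    show f (act lam η (lQ Q) d q) - dd (ψ (act lam η (lQ Q) d q)) = act lam η P.l d (f q - dd (ψ q))
    rw [hf.1, hψ.1, map_sub]
    congr 1
    rw [act_apply, act_apply, map_add, map_smul, hl]
  · intro d q
    show f (act lam η (rQ Q) d q) - dd (ψ (act lam η (rQ Q) d q)) = act lam η P.r d (f q - dd (ψ q))
    rw [hf.2, hψ.2, map_sub]
    congr 1
    rw [act_apply, act_apply, map_add, map_smul, hr]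

theorem final3 (hLift : TaskLift) (A : Type) [NonUnitalNormedRing A] [NormedSpace ℂ A] [IsScalarTower ℂ A A]
    [SMulCommClass ℂ A A] [CompleteSpace A] (ι : Type) {D : Type} [NormedRing D] [NormedAlgebra ℂ D]
    {lam : D →L[ℂ] ℂ} {η : D →L[ℂ] A} (hh : IsUHom lam η) {J : Type} {U : Ultrafilter J}
    {m : J → Finset (D × D)} {C : ℝ} (hm : IsDiag U m C)
    (X : ℕ → Pr A ι) (d : ∀ n, (X (n + 1)).X →L[ℂ] (X n).X) (s : ∀ n, (X n).X →L[ℂ] (X (n + 1)).X)
    (hdl : ∀ n a x, d n ((X (n + 1)).l a x) = (X n).l a (d n x))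
    (hdr : ∀ n a x, d n ((X (n + 1)).r a x) = (X n).r a (d n x))
    (h00 : ∀ x, d 0 (s 0 x) = x) (hds : ∀ n x, d (n + 1) (s (n + 1) x) + s n (d n x) = x)
    (hdd : ∀ n x, d n (d (n + 1) x) = 0)
    (o : (X 0).X) (ho : ∀ a, (X 0).l a o = (X 0).r a o) (hone : o ≠ 0)
    (hinv : ∀ x : (X 1).X, (∀ c, act lam η (X 1).l c x = act lam η (X 1).r c x) → x = 0) :
    db A = ⊤ := by
  have main : ∀ n, ¬ (plusBMod A).HasResolution n := by
    rintro n ⟨R, hn⟩
    -- the differentials are morphisms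
    have hdH : ∀ k, BMod.IsHom (XB (X (k + 1))) (XB (X k)) (d k) := fun k =>
      ⟨(d k).isBoundedLinearMap, hdl k, hdr k⟩
    -- the first morphism
    let f1 : Plus A → (X 0).X := fun x => x.fst • o + (X 0).l x.snd o
    have hf1b : IsBoundedLinearMap ℂ f1 := by
      have e : f1 = fun x : Plus A =>
          (((ContinuousLinearMap.toSpanSingleton ℂ o).comp
            ((ContinuousLinearMap.fst ℂ ℂ A).comp
              (WithLp.prodContinuousLinearEquiv 1 ℂ ℂ A).toContinuousLinearMap)) +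
          (((X 0).l.flip o).comp ((ContinuousLinearMap.snd ℂ ℂ A).comp
              (WithLp.prodContinuousLinearEquiv 1 ℂ ℂ A).toContinuousLinearMap))) x := by
        funext x
        rfl
      rw [e]
      exact ContinuousLinearMap.isBoundedLinearMap _
    have hf1 : BMod.IsHom (plusBMod A) (XB (X 0)) f1 := by
      refine ⟨hf1b, fun b x => ?_, fun b x => ?_⟩
      · show (0 : ℂ) • o + (X 0).l (x.fst • b + b * x.snd) o =
          (X 0).l b (x.fst • o + (X 0).l x.snd o)
        rw [zero_smul, zero_add, map_add, map_smul, map_add, map_smul,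
          ContinuousLinearMap.add_apply, ContinuousLinearMap.smul_apply, (X 0).l_mul]
      · show (0 : ℂ) • o + (X 0).l (x.fst • b + x.snd * b) o =
          (X 0).r b (x.fst • o + (X 0).l x.snd o)
        rw [zero_smul, zero_add, map_add, map_smul, map_add, map_smul,
          ContinuousLinearMap.add_apply, ContinuousLinearMap.smul_apply, (X 0).l_mul, ho,
          (X 0).lr]
    -- the lifts
    let Tk : ℕ → Type := fun k => {f : (R.P k).carrier → (X (k + 1)).X //
      BMod.IsHom (R.P k) (XB (X (k + 1))) f ∧ ∀ p, d k (f (R.d k p)) = 0}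
    have hstart : ∃ f : (R.P 0).carrier → (X 1).X, BMod.IsHom (R.P 0) (XB (X 1)) f ∧
        ∀ p, d 0 (f p) = f1 (R.ε p) := by
      refine hLift A (R.P 0) (XB (X 1)) (XB (X 0)) (R.projective 0) (fun p => f1 (R.ε p)) (d 0)
        (fun p => s 0 (f1 (R.ε p))) ?_ (hdH 0) ?_ (fun p => h00 _)
      · exact hom_comp R.ε_hom hf1
      · exact (s 0).isBoundedLinearMap.comp (hf1.1.comp R.ε_hom.1)
    obtain ⟨f0, hf0, hf0'⟩ := hstart
    have hf10 : f1 0 = 0 := hf1b.toIsLinearMap.map_zero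
    have hstep : ∀ k (f : Tk k), ∃ g : Tk (k + 1), ∀ p, d (k + 1) (g.1 p) = f.1 (R.d k p) := by
      rintro k ⟨f, hf, hf'⟩
      obtain ⟨g, hg, hg'⟩ := hLift A (R.P (k + 1)) (XB (X (k + 2))) (XB (X (k + 1)))
        (R.projective (k + 1)) (fun p => f (R.d k p)) (d (k + 1))
        (fun p => s (k + 1) (f (R.d k p)))
        (hom_comp (R.d_hom k) hf) (hdH (k + 1))
        ((s (k + 1)).isBoundedLinearMap.comp (hf.1.comp (R.d_hom k).1)) (fun p => by
          have := hds k (f (R.d k p))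
          rw [hf', map_zero, add_zero] at this
          exact this)
      refine ⟨⟨g, hg, fun p => ?_⟩, hg'⟩
      rw [hg', R.d_d]
      exact hf.1.toIsLinearMap.map_zero
    choose nx hnx using hstep
    let Φ : ∀ k, Tk k := fun k => Nat.rec (motive := Tk) ⟨f0, hf0, fun p =>
      (hf0' _).trans ((congrArg f1 (R.ε_d p)).trans hf10)⟩ nx k
    have hΦ0 : (Φ 0).1 = f0 := rfl
    have hΦs : ∀ k p, d (k + 1) ((Φ (k + 1)).1 p) = (Φ k).1 (R.d k p) := fun k p =>
      hnx k (Φ k) p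
    -- continuous linear versions
    let Φc : ∀ k, (R.P k).carrier →L[ℂ] (X (k + 1)).X := fun k =>
      (Φ k).2.1.1.toContinuousLinearMap
    have hΦc : ∀ k p, Φc k p = (Φ k).1 p := fun k p => rfl
    have hΦe : ∀ k, Eqv2 lam η (R.P k) (X (k + 1)) (Φc k) := fun k =>
      ⟨fun c q => hom_L (Φ k).2.1 c q, fun c q => hom_R (Φ k).2.1 c q⟩
    let Rd : ∀ k, (R.P (k + 1)).carrier →L[ℂ] (R.P k).carrier := fun k =>
      (R.d_hom k).1.toContinuousLinearMap
    let Rs : ∀ k, (R.P k).carrier →L[ℂ] (R.P (k + 1)).carrier := fun k =>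
      (R.s_bdd k).toContinuousLinearMap
    -- equivariance of the corrected maps
    have hθe : ∀ k (ψ : (R.P k).carrier →L[ℂ] (X (k + 2)).X), Eqv2 lam η (R.P k) (X (k + 2)) ψ →
        Eqv2 lam η (R.P k) (X (k + 1)) (Φc k - (d (k + 1)).comp ψ) := by
      intro k ψ hψ
      exact eqv2_sub (d (k + 1)) (hdl (k + 1)) (hdr (k + 1)) (hΦe k) hψ
    -- downward induction
    have hdown : ∀ j k, k + j = n → ∃ ψ : (R.P k).carrier →L[ℂ] (X (k + 2)).X,
        Eqv2 lam η (R.P k) (X (k + 2)) ψ ∧ ∀ x, Φc k (R.d k x) = d (k + 1) (ψ (R.d k x)) := by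
      intro j
      induction j with
      | zero =>
        intro k hk
        refine ⟨0, ⟨fun c q => ?_, fun c q => ?_⟩, fun x => ?_⟩
        · exact (map_zero (act lam η (X (k + 2)).l c)).symm
        · exact (map_zero (act lam η (X (k + 2)).r c)).symm
        · have := hn (k + 1) (by omega)
          have hx : x = 0 := Subsingleton.elim _ _
          have h1 : R.d k x = 0 := by
            rw [hx]; exact (R.d_hom k).1.toIsLinearMap.map_zero
          rw [h1, map_zero, map_zero, map_zero]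
      | succ j ih =>
        intro k hk
        obtain ⟨ψ, hψe, hψ⟩ := ih (k + 1) (by omega)
        set θ : (R.P (k + 1)).carrier →L[ℂ] (X (k + 2)).X :=
          Φc (k + 1) - (d (k + 2)).comp ψ with hθ
        have hθ0 : ∀ x, θ (R.d (k + 1) x) = 0 := by
          intro x
          rw [hθ, ContinuousLinearMap.sub_apply, hψ, ContinuousLinearMap.comp_apply, sub_self]
        obtain ⟨ψ', h1, h2⟩ := avg_step2 hh hm (X (k + 2)) (R.P k) (R.P (k + 1)) (R.d k)
          (R.d_hom k) θ (hθe (k + 1) ψ hψe) (θ.comp (Rs k)) (fun x => by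
            show θ (R.s k (R.d k x)) = θ x
            conv_rhs => rw [← R.h_succ k x]
            rw [map_add, hθ0, add_zero])
        refine ⟨ψ', h1, fun x => ?_⟩
        rw [h2, hθ, ContinuousLinearMap.sub_apply, ContinuousLinearMap.comp_apply, map_sub, hdd,
          sub_zero]
        exact (hΦs k x).symm
    obtain ⟨ψ, hψe, hψ⟩ := hdown n 0 (by omega)
    set θ : (R.P 0).carrier →L[ℂ] (X 1).X := Φc 0 - (d 1).comp ψ with hθ
    have hθ0 : ∀ x, θ (R.d 0 x) = 0 := by
      intro x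
      rw [hθ, ContinuousLinearMap.sub_apply, hψ, ContinuousLinearMap.comp_apply, sub_self]
    obtain ⟨ψ', h1, h2⟩ := avg_step2 hh hm (X 1) (plusBMod A) (R.P 0) R.ε
      R.ε_hom θ (hθe 0 ψ hψe) (θ.comp R.s'_bdd.toContinuousLinearMap) (fun x => by
        show θ (R.s' (R.ε x)) = θ x
        conv_rhs => rw [← R.h_zero x]
        rw [map_add, hθ0, add_zero])
    let one : (plusBMod A).carrier := WithLp.toLp 1 ((1 : ℂ), (0 : A))
    have hone' : ∀ c : D, act lam η (lQ (plusBMod A)) c one = act lam η (rQ (plusBMod A)) c one := by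
      intro c
      rw [act_apply, act_apply]
      congr 1
      refine plus_ext rfl ?_
      show (1 : ℂ) • η c + η c * 0 = (1 : ℂ) • η c + 0 * η c
      rw [mul_zero, zero_mul]
    have hz : ψ' one = 0 := by
      refine hinv _ fun c => ?_
      rw [← h1.1, ← h1.2, hone']
    have h4 : R.ε (R.s' one) = one := R.ε_s one
    have h5 : θ (R.s' one) = 0 := by rw [← h2, h4, hz]
    have h6 : d 0 (θ (R.s' one)) = o := by
      rw [hθ, ContinuousLinearMap.sub_apply, ContinuousLinearMap.comp_apply, map_sub, hdd,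
        sub_zero]
      show d 0 (f0 (R.s' one)) = o
      rw [hf0', h4]
      show (1 : ℂ) • o + (X 0).l 0 o = o
      rw [one_smul, map_zero, ContinuousLinearMap.zero_apply, add_zero]
    apply hone
    rw [← h6, h5, map_zero]
  unfold db BMod.dh
  simp only [iInf_eq_top]
  intro n hn
  exact absurd hn (main n)

end

end Pool.Agent.Y464.AM
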