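import Mathlib
import Pool.Agent.Helper832.GDStmt
import Pool.Agent.Helper832.GDV
import Pool.Agent.Helper832.GDU
import Pool.Agent.H724R3.N.Main3
import Pool.Agent.Y464.AG.Main
import Pool.Agent.Y464.AM.Fin

set_option autoImplicit false

/-! Banach algebras containing an amenable Banach algebra without finite-dimensional subrepresentations. -/

namespace Pool.Agent.Y464.AM

open Filter Topology Pool.Agent.Helper832.GS Pool.Agent.H724R3.N Pool.Agent.H724R3.N.TFin

noncomputable section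

/-- A Hilbert-Schmidt operator commuting with a family of operators, closed under adjoints up to scalars and without
nonzero finite-dimensional invariant subspaces, is zero. -/
theorem hs_zero2 {H : Type} [NormedAddCommGroup H] [InnerProductSpace ℂ H] [CompleteSpace H]
    {ι : Type} (b : HilbertBasis ι ℂ H) {D : Type} (V : D → H →L[ℂ] H)
    (hs : ∀ c, ∃ (c' : D) (z : ℂ), star (V c) = z • (1 : H →L[ℂ] H) + V c')
    (hW : ∀ W : Submodule ℂ H, FiniteDimensional ℂ W → (∀ c, ∀ x ∈ W, V c x ∈ W) → W = ⊥)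
    (T : H →L[ℂ] H) (hT : Summable (fun k => ‖T (b k)‖ ^ 2)) (hc : ∀ c, V c * T = T * V c) : T = 0 := by
  by_contra hT0
  have hcomp := Pool.Agent.Y464.AG.compact_of_hs b T hT
  obtain ⟨S, hS⟩ : ∃ S : H →L[ℂ] H, S = star T * T := ⟨_, rfl⟩
  have hSa : IsSelfAdjoint S := by rw [hS]; exact IsSelfAdjoint.star_mul_self T
  have hS0 : S ≠ 0 := by
    intro h
    rw [hS] at h
    exact hT0 ((CStarRing.star_mul_self_eq_zero_iff T).1 h)
  have hSc : IsCompactOperator S := by rw [hS]; exact hcomp.clm_comp (star T)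
  have hcs : ∀ c, V c * star T = star T * V c := by
    intro c
    obtain ⟨c', z, hz⟩ := hs c
    have h1 : star (V c) * T = T * star (V c) := by
      rw [hz, add_mul, mul_add, hc, smul_mul_assoc, mul_smul_comm, one_mul, mul_one]
    have h2 := congrArg star h1
    rw [star_mul, star_mul, star_star] at h2
    exact h2.symm
  have hcomm : ∀ c, V c * S = S * V c := by
    intro c
    rw [hS, ← mul_assoc, hcs, mul_assoc, hc, mul_assoc]
  have hnt : Nontrivial (H →L[ℂ] H) := ⟨⟨S, 0, hS0⟩⟩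
  obtain ⟨μ, hμ1, hμ2⟩ := spectrum.exists_nnnorm_eq_spectralRadius S
  rw [hSa.spectralRadius_eq_nnnorm] at hμ2
  have hμ0 : μ ≠ 0 := by
    rintro rfl
    have h1 : (‖S‖₊ : ENNReal) = 0 := by rw [← hμ2]; simp
    rw [ENNReal.coe_eq_zero, nnnorm_eq_zero] at h1
    exact hS0 h1
  have hev := (hSc.hasEigenvalue_iff_mem_spectrum hμ0).2 hμ1
  obtain ⟨W, hWdef⟩ : ∃ W : Submodule ℂ H, W = Module.End.eigenspace (S : Module.End ℂ H) μ := ⟨_, rfl⟩
  have hWm : ∀ x, x ∈ W ↔ S x = μ • x := by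
    intro x
    rw [hWdef, Module.End.mem_eigenspace_iff]
    rfl
  have hWcl : IsClosed (W : Set H) := by
    have : (W : Set H) = {x | S x = μ • x} := by
      ext x
      exact hWm x
    rw [this]
    exact isClosed_eq S.continuous (continuous_const_smul μ)
  have hWfd : FiniteDimensional ℂ W := by
    have hinv : ∀ v ∈ W, (S : H →ₗ[ℂ] H) v ∈ W := by
      intro v hv
      have : (S : H →ₗ[ℂ] H) v = μ • v := (hWm v).1 hv
      rw [this]
      exact W.smul_mem _ hv
    have h1 : IsCompactOperator ((S : H →ₗ[ℂ] H).restrict hinv) := IsCompactOperator.restrict hSc hinv hWcl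
    have h2 := h1.smul μ⁻¹
    have h3 : (μ⁻¹ • ⇑((S : H →ₗ[ℂ] H).restrict hinv) : W → W) = id := by
      funext x
      apply Subtype.ext
      show μ⁻¹ • (S x : H) = x
      rw [(hWm x).1 x.2, smul_smul, inv_mul_cancel₀ hμ0, one_smul]
    rw [h3] at h2
    haveI : CompleteSpace W := hWcl.completeSpace_coe
    exact FiniteDimensional.of_isCompactOperator_id h2
  have hbot := hW W hWfd (by
    intro c x hx
    rw [hWm] at hx ⊢
    have h1 := congrArg (fun R : H →L[ℂ] H => R x) (hcomm c)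
    have h2 : V c (S x) = S (V c x) := h1
    rw [← h2, hx, map_smul])
  rw [hWdef] at hbot
  exact hev hbot

variable {D : Type} [NormedRing D] [NormedAlgebra ℂ D]

lemma inv_zero2 {A : Type} [NonUnitalNormedRing A] [NormedSpace ℂ A]
    {H : Type} [NormedAddCommGroup H] [InnerProductSpace ℂ H] [CompleteSpace H]
    {ι : Type} (b : HilbertBasis ι ℂ H) (π : A →L[ℂ] (H →L[ℂ] H))
    {lam : D →L[ℂ] ℂ} {η : D →L[ℂ] A}
    (hHS : ∀ T : H →L[ℂ] H, Summable (fun k => ‖T (b k)‖ ^ 2) →
      (∀ c, π (η c) * T = T * π (η c)) → T = 0)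
    (P : Pr A ι) (j : P.X →ₗ[ℂ] (H →L[ℂ] H)) (hj : Function.Bijective j)
    (hjl : ∀ a x, j (P.l a x) = π a * j x) (hjr : ∀ a x, j (P.r a x) = j x * π a)
    (hjs : ∀ y : P.Y, Summable (fun k => ‖j (P.i y) (b k)‖ ^ 2))
    (w : (tw P 1).X) (hw : ∀ c, act lam η (tw P 1).l c w = act lam η (tw P 1).r c w) : w = 0 := by
  let w' : P.nX := w
  have hw2 : ∀ c, (tw P 1).l (η c) w = (tw P 1).r (η c) w := by
    intro c
    have h := hw c
    rw [act_apply, act_apply] at h
    exact add_left_cancel h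
  have hY : ∀ k, w'.1.2 (Fs.e k) = 0 := by
    intro k
    set y := w'.1.2 (Fs.e k) with hy
    have h1 : w'.1.1 (Fs.e k) = P.i y := w'.2 k
    have h2 : ∀ c, P.l (η c) (P.i y) = P.r (η c) (P.i y) := by
      intro c
      have h3 := congrArg (fun v : P.nX => v.1.1 (Fs.e k)) (hw2 c)
      have h4 : P.l (η c) (w'.1.1 (Fs.e k)) = P.r (η c) (w'.1.1 (Fs.e k)) := h3
      rwa [h1] at h4
    have h5 : j (P.i y) = 0 := by
      refine hHS _ (hjs y) fun c => ?_
      have h6 := congrArg j (h2 c)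
      rw [hjl, hjr] at h6
      exact h6
    refine P.inj (hj.1 ?_)
    rw [h5, map_zero, map_zero]
  refine P.nX_ext (v := w') (w := 0) fun k => ?_
  rw [w'.2 k, hY k, map_zero]
  rfl

/-- **The criterion.** -/
theorem criterion2 (A : Type) [NonUnitalNormedRing A] [NormedSpace ℂ A] [IsScalarTower ℂ A A]
    [SMulCommClass ℂ A A] [CompleteSpace A]
    (H : Type) [NormedAddCommGroup H] [InnerProductSpace ℂ H] [CompleteSpace H] [Nontrivial H]
    (π : A →L[ℂ] (H →L[ℂ] H)) (hπ : ∀ x y, π (x * y) = π x * π y)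
    (D : Type) [NormedRing D] [NormedAlgebra ℂ D] (hD : IsAmen D) (lam : D →L[ℂ] ℂ) (η : D →L[ℂ] A)
    (hh : IsUHom lam η)
    (hs : ∀ c, ∃ (c' : D) (z : ℂ), star (π (η c)) = z • (1 : H →L[ℂ] H) + π (η c'))
    (hW : ∀ W : Submodule ℂ H, FiniteDimensional ℂ W → (∀ c, ∀ x ∈ W, π (η c) x ∈ W) → W = ⊥) :
    dg A = ⊤ ∧ db A = ⊤ := by
  obtain ⟨w, b, -⟩ := exists_hilbertBasis ℂ H
  obtain ⟨J, U, m, C, hm⟩ := hD
  obtain ⟨P, j, hj, hjl, hjr, hjs⟩ := taskBase A H w b π hπ
  obtain ⟨o, ho⟩ := hj.2 1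
  have hlr : ∀ x, P.l x o = P.r x o := by
    intro x
    refine hj.1 ?_
    rw [hjl, hjr, ho, mul_one, one_mul]
  have hinv := inv_zero2 (lam := lam) (η := η) b π
    (fun T hT hc => hs_zero2 b (fun c => π (η c)) hs hW T hT hc) P j hj hjl hjr hjs
  refine Pool.Agent.Y464.AG.dg_of_db (final3 taskLift A w hh hm (tw P) (fun n => (td taskInter P n).f) (ts P)
      (fun n => (td taskInter P n).fl) (fun n => (td taskInter P n).fr) (td_sp0 taskInter P)
      (td_sp taskInter P) (td_td taskInter P) o hlr ?_ hinv)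
  intro h0
  have : j o = 0 := by
    rw [h0]
    exact map_zero j
  rw [ho] at this
  exact one_ne_zero this

end

end Pool.Agent.Y464.AM
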