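import Mathlib
import Pool.Agent.Y464.AM.Main

set_option autoImplicit false

/-! Amenable C*-algebras. -/

namespace Pool.Agent.Y464.AM

open Filter Topology Pool.Agent.Helper832.GS

noncomputable section

section unitization

variable (E : Type) [NonUnitalNormedRing E] [NormedSpace ℂ E] [IsScalarTower ℂ E E] [SMulCommClass ℂ E E]

/-- the first coordinate of the unitization -/
def fstU : WithLp 1 (Unitization ℂ E) →L[ℂ] ℂ := LinearMap.mkContinuous
  { toFun := fun x => (WithLp.ofLp x).fst
    map_add' := fun _ _ => rfl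
    map_smul' := fun _ _ => rfl } 1 (fun x => by
      rw [one_mul, WithLp.unitization_norm_def]
      exact le_add_of_nonneg_right (norm_nonneg _))

/-- the second coordinate of the unitization -/
def sndU : WithLp 1 (Unitization ℂ E) →L[ℂ] E := LinearMap.mkContinuous
  { toFun := fun x => (WithLp.ofLp x).snd
    map_add' := fun _ _ => rfl
    map_smul' := fun _ _ => rfl } 1 (fun x => by
      rw [one_mul, WithLp.unitization_norm_def]
      exact le_add_of_nonneg_left (norm_nonneg _))

theorem sndU_inr (x : E) : sndU E (WithLp.toLp 1 (x : Unitization ℂ E)) = x := rfl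

variable {E}

theorem isUHom_unitization {A : Type} [NonUnitalNormedRing A] [NormedSpace ℂ A] (η : E →L[ℂ] A)
    (hη : ∀ x y, η (x * y) = η x * η y) : IsUHom (fstU E) (η.comp (sndU E)) where
  lam_one := rfl
  eta_one := by
    show η (sndU E 1) = 0
    have : sndU E 1 = 0 := rfl
    rw [this, map_zero]
  lam_mul := fun _ _ => rfl
  eta_mul := fun c d => by
    show η (sndU E (c * d)) = fstU E c • η (sndU E d) + fstU E d • η (sndU E c) + η (sndU E c) * η (sndU E d)
    have h : sndU E (c * d) = fstU E c • sndU E d + fstU E d • sndU E c + sndU E c * sndU E d := rfl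
    rw [h, map_add, map_add, map_smul, map_smul, hη]

end unitization

/-- **The criterion** for amenable Banach algebras `E` and homomorphisms `η : E → A`. -/
theorem criterion3 (A : Type) [NonUnitalNormedRing A] [NormedSpace ℂ A] [IsScalarTower ℂ A A]
    [SMulCommClass ℂ A A] [CompleteSpace A]
    (H : Type) [NormedAddCommGroup H] [InnerProductSpace ℂ H] [CompleteSpace H] [Nontrivial H]
    (π : A →L[ℂ] (H →L[ℂ] H)) (hπ : ∀ x y, π (x * y) = π x * π y)
    (E : Type) [NonUnitalNormedRing E] [NormedSpace ℂ E] [IsScalarTower ℂ E E] [SMulCommClass ℂ E E]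
    (hE : IsAmen (WithLp 1 (Unitization ℂ E))) (η : E →L[ℂ] A) (hη : ∀ x y, η (x * y) = η x * η y)
    (hs : ∀ c, ∃ c' : E, star (π (η c)) = π (η c'))
    (hW : ∀ W : Submodule ℂ H, FiniteDimensional ℂ W → (∀ c, ∀ x ∈ W, π (η c) x ∈ W) → W = ⊥) :
    dg A = ⊤ ∧ db A = ⊤ := by
  refine criterion2 A H π hπ _ hE (fstU E) (η.comp (sndU E)) (isUHom_unitization η hη) ?_ ?_
  · intro c
    obtain ⟨c', hc'⟩ := hs (sndU E c)
    refine ⟨WithLp.toLp 1 (c' : Unitization ℂ E), 0, ?_⟩
    rw [zero_smul, zero_add]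
    exact hc'
  · intro W hWf hWi
    exact hW W hWf fun c x hx => hWi (WithLp.toLp 1 (c : Unitization ℂ E)) x hx

/-- Amenable C*-algebras with a representation without finite-dimensional subrepresentations. -/
theorem cstar2 (A : Type) [NonUnitalCStarAlgebra A] (hA : IsAmen (WithLp 1 (Unitization ℂ A)))
    (K : Type) [NormedAddCommGroup K] [InnerProductSpace ℂ K] [CompleteSpace K] [Nontrivial K]
    (π : A →⋆ₙₐ[ℂ] (K →L[ℂ] K))
    (hW : ∀ W : Submodule ℂ K, FiniteDimensional ℂ W → (∀ a, ∀ x ∈ W, π a x ∈ W) → W = ⊥) :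
    dg A = ⊤ ∧ db A = ⊤ := by
  let π' : A →L[ℂ] (K →L[ℂ] K) := LinearMap.mkContinuous
    { toFun := fun x => π x
      map_add' := fun x y => map_add π x y
      map_smul' := fun c x => map_smul π c x } 1 (fun x => by
        rw [one_mul]; exact NonUnitalStarAlgHom.norm_apply_le π x)
  refine criterion3 A K π' (fun x y => map_mul π x y) A hA (ContinuousLinearMap.id ℂ A) (fun _ _ => rfl) ?_ hW
  intro c
  refine ⟨star c, ?_⟩
  show star (π c) = π (star c)
  rw [map_star]

/-- Amenable C*-algebras with an infinite-dimensional irreducible representation. -/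
theorem irreducible (A : Type) [NonUnitalCStarAlgebra A] (hA : IsAmen (WithLp 1 (Unitization ℂ A)))
    (K : Type) [NormedAddCommGroup K] [InnerProductSpace ℂ K] [CompleteSpace K] (hK : ¬ FiniteDimensional ℂ K)
    (π : A →⋆ₙₐ[ℂ] (K →L[ℂ] K))
    (hW : ∀ W : Submodule ℂ K, IsClosed (W : Set K) → (∀ a, ∀ x ∈ W, π a x ∈ W) → W = ⊥ ∨ W = ⊤) :
    dg A = ⊤ ∧ db A = ⊤ := by
  haveI : Nontrivial K := by
    by_contra h
    rw [not_nontrivial_iff_subsingleton] at h
    exact hK inferInstance
  refine cstar2 A hA K π fun W hWf hWi => ?_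
  haveI := hWf
  rcases hW W W.closed_of_finiteDimensional hWi with h | h
  · exact h
  · exact absurd (by rw [h] at hWf; exact Module.Finite.equiv (Submodule.topEquiv (R := ℂ) (M := K))) hK

/-- Unital C*-algebras containing an amenable C*-algebra without finite-dimensional representations. -/
theorem containing (A : Type) [CStarAlgebra A] [Nontrivial A] (E : Type) [CStarAlgebra E]
    (hE : IsAmen (WithLp 1 (Unitization ℂ E))) (θ : E →⋆ₐ[ℂ] A)
    (hd : ∀ d : ℕ, 0 < d → IsEmpty (E →ₐ[ℂ] Matrix (Fin d) (Fin d) ℂ)) : dg A = ⊤ ∧ db A = ⊤ := by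
  obtain ⟨K, i1, i2, i3, π, hK⟩ := Pool.Agent.Y464.AG.exists_rep A
  let π' : A →L[ℂ] (K →L[ℂ] K) := LinearMap.mkContinuous
    { toFun := fun x => π x
      map_add' := fun x y => map_add π x y
      map_smul' := fun c x => map_smul π c x } 1 (fun x => by
        rw [one_mul]; exact NonUnitalStarAlgHom.norm_apply_le π x)
  let θ' : E →L[ℂ] A := LinearMap.mkContinuous
    { toFun := fun x => θ x
      map_add' := fun x y => map_add θ x y
      map_smul' := fun c x => map_smul θ c x } 1 (fun x => by
        rw [one_mul]; exact NonUnitalStarAlgHom.norm_apply_le θ x)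
  refine criterion3 A K π' (fun x y => map_mul π x y) E hE θ' (fun x y => map_mul θ x y) ?_ ?_
  · intro c
    refine ⟨star c, ?_⟩
    show star (π (θ c)) = π (θ (star c))
    rw [map_star, map_star]
  · intro W hWf hWi
    by_contra hne
    haveI := hWf
    obtain ⟨d, hd0, ⟨ρ⟩⟩ := Pool.Agent.Y464.AG.rep_of_invariant (π.comp θ) (Set.univ : Set E) W hne
      (fun s _ x hx => hWi s x hx)
    exact (hd d hd0).false (ρ.comp ((AlgHom.id ℂ E).codRestrict _ fun x => Algebra.subset_adjoin (Set.mem_univ x)))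

/-- Unital C*-algebras containing an infinite-dimensional simple amenable C*-algebra. -/
theorem simple (A : Type) [CStarAlgebra A] [Nontrivial A] (E : Type) [CStarAlgebra E] [IsSimpleRing E]
    (hE0 : ¬ FiniteDimensional ℂ E) (hE : IsAmen (WithLp 1 (Unitization ℂ E))) (θ : E →⋆ₐ[ℂ] A) :
    dg A = ⊤ ∧ db A = ⊤ := by
  refine containing A E hE θ fun d hd => ⟨fun ρ => hE0 ?_⟩
  haveI : Nonempty (Fin d) := ⟨⟨0, hd⟩⟩
  have h1 : Function.Injective ρ := RingHom.injective ρ.toRingHom
  exact Module.Finite.of_injective ρ.toLinearMap h1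

end

end Pool.Agent.Y464.AM
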