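import Mathlib
import Pool.Agent.Y464.AM.CStar

set_option autoImplicit false

/-! Approximate diagonals of a Banach algebra and of its unitization. -/

namespace Pool.Agent.Y464.AM

open Filter Topology

noncomputable section

/-- `m` is a bounded approximate diagonal of the Banach algebra `E` along `U` (in the weak form). -/
structure IsDiag0 {E : Type} [NonUnitalNormedRing E] [NormedSpace ℂ E] {J : Type} (U : Ultrafilter J)
    (m : J → Finset (E × E)) (C : ℝ) : Prop where
  bdd : ∀ j, ∑ p ∈ m j, ‖p.1‖ * ‖p.2‖ ≤ C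
  comm : ∀ (B : E →L[ℂ] E →L[ℂ] ℂ) (c : E),
    Tendsto (fun j => ∑ p ∈ m j, (B (c * p.1) p.2 - B p.1 (p.2 * c))) U (𝓝 0)
  unit : ∀ (ψ : E →L[ℂ] ℂ) (c : E), Tendsto (fun j => ψ ((∑ p ∈ m j, p.1 * p.2) * c)) U (𝓝 (ψ c))

/-- the iterated limit -/
def itU {J : Type} (U : Ultrafilter J) : Ultrafilter (J × J) := U.bind fun k => U.map fun j => (j, k)

theorem tendsto_itU {J : Type} (U : Ultrafilter J) (f : J → J → ℂ) (g : J → ℂ) (a : ℂ)
    (h : ∀ k, Tendsto (fun j => f j k) U (𝓝 (g k))) (hg : Tendsto g U (𝓝 a)) :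
    Tendsto (fun p : J × J => f p.1 p.2) (itU U) (𝓝 a) := by
  rw [tendsto_nhds]
  intro V hV ha
  have h1 : ∀ᶠ k in (U : Filter J), g k ∈ V := hg.eventually (hV.mem_nhds ha)
  have h2 : (fun p : J × J => f p.1 p.2) ⁻¹' V ∈
      Filter.bind (U : Filter J) (fun k => ((U.map fun j => (j, k) : Ultrafilter (J × J)) : Filter (J × J))) := by
    rw [Filter.mem_bind']
    filter_upwards [h1] with k hk
    exact (h k).eventually (hV.mem_nhds hk)
  exact h2

theorem exists_lim {F : Type} [NormedAddCommGroup F] [NormedSpace ℂ F] {J : Type} (U : Ultrafilter J)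
    (f : J → F →L[ℂ] ℂ) (K : ℝ) (hK : ∀ j, ‖f j‖ ≤ K) :
    ∃ g : F →L[ℂ] ℂ, ∀ y, Tendsto (fun j => f j y) U (𝓝 (g y)) := by
  have hb : ∀ y j, ‖f j y‖ ≤ K * ‖y‖ := fun y j => (f j).le_of_opNorm_le (hK j) y
  have h1 : ∀ y, ∃ z : ℂ, ‖z‖ ≤ K * ‖y‖ ∧ Tendsto (fun j => f j y) U (𝓝 z) := by
    intro y
    obtain ⟨z, hz, hz2⟩ := (isCompact_closedBall (0 : ℂ) (K * ‖y‖)).ultrafilter_le_nhds (U.map fun j => f j y) (by
      rw [Filter.le_principal_iff]
      show (fun j => f j y) ⁻¹' Metric.closedBall (0 : ℂ) (K * ‖y‖) ∈ (U : Filter J)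
      exact Filter.mem_of_superset Filter.univ_mem (fun j _ => by simpa using hb y j))
    exact ⟨z, by simpa using hz, hz2⟩
  choose g hg1 hg2 using h1
  refine ⟨LinearMap.mkContinuous
    { toFun := g
      map_add' := fun x y => tendsto_nhds_unique (hg2 (x + y)) (((hg2 x).add (hg2 y)).congr fun j => by
        rw [map_add])
      map_smul' := fun c y => tendsto_nhds_unique (hg2 (c • y)) (((hg2 y).const_mul c).congr fun j => by
        rw [map_smul, smul_eq_mul]) } K hg1, hg2⟩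

variable (E : Type) [NonUnitalNormedRing E] [NormedSpace ℂ E] [IsScalarTower ℂ E E] [SMulCommClass ℂ E E]

/-- the inclusion into the unitization -/
def inL : E →L[ℂ] WithLp 1 (Unitization ℂ E) := LinearMap.mkContinuous
  { toFun := fun x => WithLp.toLp 1 (x : Unitization ℂ E)
    map_add' := fun x y => congrArg (WithLp.toLp 1) (Unitization.inr_add ℂ x y)
    map_smul' := fun c x => congrArg (WithLp.toLp 1) (Unitization.inr_smul ℂ c x) } 1 (fun x => by
      rw [one_mul]
      exact le_of_eq (WithLp.unitization_norm_inr x))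

variable {E}

theorem inL_mul (x y : E) : inL E (x * y) = inL E x * inL E y :=
  congrArg (WithLp.toLp 1) (Unitization.inr_mul ℂ x y)

theorem inL_norm (x : E) : ‖inL E x‖ = ‖x‖ := WithLp.unitization_norm_inr x

theorem inL_inj : Function.Injective (inL E) := by
  intro x y h
  have := congrArg (sndU E) h
  exact this

theorem decomp (c : WithLp 1 (Unitization ℂ E)) :
    c = fstU E c • (1 : WithLp 1 (Unitization ℂ E)) + inL E (sndU E c) := by
  apply (WithLp.equiv 1 (Unitization ℂ E)).injective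
  refine Unitization.ext ?_ ?_
  · show (fstU E c) = (fstU E c) • (1 : ℂ) + 0
    rw [smul_eq_mul, mul_one, add_zero]
  · show (sndU E c) = (fstU E c) • (0 : E) + sndU E c
    rw [smul_zero, zero_add]

theorem B_comm (B : WithLp 1 (Unitization ℂ E) →L[ℂ] WithLp 1 (Unitization ℂ E) →L[ℂ] ℂ)
    (c u v : WithLp 1 (Unitization ℂ E)) :
    B (c * u) v - B u (v * c) = B (inL E (sndU E c) * u) v - B u (v * inL E (sndU E c)) := by
  conv_lhs => rw [decomp c]
  rw [add_mul, mul_add, smul_mul_assoc, mul_smul_comm, one_mul, mul_one, map_add, map_smul, map_add, map_smul]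
  show fstU E c • B u v + B (inL E (sndU E c) * u) v - (fstU E c • B u v + B u (v * inL E (sndU E c))) = _
  ring

/-- `Σ u v` -/
def ee (s : Finset (E × E)) : E := ∑ p ∈ s, p.1 * p.2

/-- the pairs in the unitization -/
def mm (s t : Finset (E × E)) : Finset (WithLp 1 (Unitization ℂ E) × WithLp 1 (Unitization ℂ E)) :=
  Finset.cons (1 - inL E (ee s), 1 - inL E (ee t))
    (s.map ⟨fun p => (inL E p.1, inL E p.2), fun p q h => by
      have h1 := congrArg Prod.fst h
      have h2 := congrArg Prod.snd h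
      exact Prod.ext (inL_inj h1) (inL_inj h2)⟩) (by
      intro h
      rw [Finset.mem_map] at h
      obtain ⟨p, -, hp⟩ := h
      have h1 : inL E p.1 = 1 - inL E (ee s) := congrArg Prod.fst hp
      have h2 := congrArg (fstU E) h1
      have h3 : (0 : ℂ) = 1 - 0 := h2
      norm_num at h3)

theorem sum_mm (s t : Finset (E × E)) (f : WithLp 1 (Unitization ℂ E) × WithLp 1 (Unitization ℂ E) → ℂ) :
    ∑ p ∈ mm s t, f p = f (1 - inL E (ee s), 1 - inL E (ee t)) + ∑ p ∈ s, f (inL E p.1, inL E p.2) := by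
  rw [mm, Finset.sum_cons, Finset.sum_map]
  rfl

theorem sum_mm' (s t : Finset (E × E)) (f : WithLp 1 (Unitization ℂ E) × WithLp 1 (Unitization ℂ E) → ℝ) :
    ∑ p ∈ mm s t, f p = f (1 - inL E (ee s), 1 - inL E (ee t)) + ∑ p ∈ s, f (inL E p.1, inL E p.2) := by
  rw [mm, Finset.sum_cons, Finset.sum_map]
  rfl

theorem ee_norm {s : Finset (E × E)} {C : ℝ} (h : ∑ p ∈ s, ‖p.1‖ * ‖p.2‖ ≤ C) : ‖ee s‖ ≤ C :=
  (norm_sum_le _ _).trans ((Finset.sum_le_sum fun p _ => norm_mul_le _ _).trans h)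

theorem one_sub_norm {x : E} {C : ℝ} (h : ‖x‖ ≤ C) :
    ‖(1 : WithLp 1 (Unitization ℂ E)) - inL E x‖ ≤ 1 + C := by
  refine (norm_sub_le _ _).trans ?_
  rw [inL_norm]
  refine add_le_add (le_of_eq ?_) h
  rw [WithLp.unitization_norm_def]
  show ‖(1 : ℂ)‖ + ‖(0 : E)‖ = 1
  rw [norm_one, norm_zero, add_zero]

/-- **A bounded approximate diagonal of `E` gives one of the unitization.** -/
theorem isDiag_unitization {J : Type} {U : Ultrafilter J} {m : J → Finset (E × E)} {C : ℝ} (hm : IsDiag0 U m C) :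
    IsDiag (itU U) (fun p : J × J => mm (m p.1) (m p.2)) (C + (1 + C) * (1 + C)) := by
  have hC0 : ∀ j, 0 ≤ C := fun j => (Finset.sum_nonneg fun p _ => by positivity).trans (hm.bdd j)
  have hen : ∀ j, ‖ee (m j)‖ ≤ C := fun j => ee_norm (hm.bdd j)
  have hl : ∀ (ψ : E →L[ℂ] ℂ) (c : E), Tendsto (fun j => ψ (ee (m j) * c)) U (𝓝 (ψ c)) := hm.unit
  have hr : ∀ (ψ : E →L[ℂ] ℂ) (c : E), Tendsto (fun j => ψ (c * ee (m j))) U (𝓝 (ψ c)) := by
    intro ψ c
    have h1 := hm.comm ((ContinuousLinearMap.compL ℂ E E ℂ ψ).comp (ContinuousLinearMap.mul ℂ E)) c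
    have h2 := h1.add (hl ψ c)
    rw [zero_add] at h2
    refine h2.congr fun j => ?_
    have e1 : ∑ p ∈ m j, (((ContinuousLinearMap.compL ℂ E E ℂ ψ).comp (ContinuousLinearMap.mul ℂ E)) (c * p.1) p.2 -
        ((ContinuousLinearMap.compL ℂ E E ℂ ψ).comp (ContinuousLinearMap.mul ℂ E)) p.1 (p.2 * c)) =
        ∑ p ∈ m j, (ψ (c * (p.1 * p.2)) - ψ (p.1 * p.2 * c)) := by
      refine Finset.sum_congr rfl fun p _ => ?_
      show ψ (c * p.1 * p.2) - ψ (p.1 * (p.2 * c)) = _
      rw [mul_assoc, mul_assoc]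
    rw [e1, Finset.sum_sub_distrib, ← map_sum, ← map_sum, ← Finset.mul_sum, ← Finset.sum_mul]
    exact sub_add_cancel _ _
  refine ⟨fun p => ?_, fun B c => ?_, fun ψ => ?_⟩
  · rw [sum_mm']
    have h1 : ∑ q ∈ m p.1, ‖inL E q.1‖ * ‖inL E q.2‖ ≤ C := by
      simp only [inL_norm]
      exact hm.bdd p.1
    have h2 := one_sub_norm (hen p.1)
    have h3 := one_sub_norm (hen p.2)
    have h4 : ‖(1 : WithLp 1 (Unitization ℂ E)) - inL E (ee (m p.1))‖ * ‖(1 : WithLp 1 (Unitization ℂ E)) -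
        inL E (ee (m p.2))‖ ≤ (1 + C) * (1 + C) :=
      mul_le_mul h2 h3 (norm_nonneg _) (by linarith [hC0 p.1])
    show ‖(1 : WithLp 1 (Unitization ℂ E)) - inL E (ee (m p.1))‖ * ‖(1 : WithLp 1 (Unitization ℂ E)) -
        inL E (ee (m p.2))‖ + ∑ q ∈ m p.1, ‖inL E q.1‖ * ‖inL E q.2‖ ≤ _
    linarith
  · obtain ⟨x, hx⟩ : ∃ x : E, x = sndU E c := ⟨_, rfl⟩
    -- the third term
    obtain ⟨g, hg⟩ := exists_lim U (fun j => (B (1 - inL E (ee (m j)))).comp (inL E)) (‖B‖ * (1 + C) * ‖inL E‖)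
      (fun j => by
        refine (ContinuousLinearMap.opNorm_comp_le _ _).trans (mul_le_mul_of_nonneg_right ?_ (norm_nonneg _))
        exact (B.le_opNorm _).trans (mul_le_mul_of_nonneg_left (one_sub_norm (hen j)) (norm_nonneg _)))
    have hcalc : ∀ j k, ∑ p ∈ mm (m j) (m k), (B (c * p.1) p.2 - B p.1 (p.2 * c)) =
        (∑ p ∈ m j, (B (inL E (x * p.1)) (inL E p.2) - B (inL E p.1) (inL E (p.2 * x)))) +
        (B (inL E (x - x * ee (m j))) (1 - inL E (ee (m k))) -
          ((B (1 - inL E (ee (m j)))).comp (inL E)) (x - ee (m k) * x)) := by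
      intro j k
      rw [sum_mm, add_comm]
      congr 1
      · refine Finset.sum_congr rfl fun p _ => ?_
        show B (c * inL E p.1) (inL E p.2) - B (inL E p.1) (inL E p.2 * c) = _
        rw [B_comm, ← hx, ← inL_mul, ← inL_mul]
      · show B (c * (1 - inL E (ee (m j)))) (1 - inL E (ee (m k))) -
          B (1 - inL E (ee (m j))) ((1 - inL E (ee (m k))) * c) = _
        rw [B_comm, ← hx, mul_sub, mul_one, sub_mul, one_mul, ← inL_mul, ← inL_mul, ← map_sub, ← map_sub]
        rfl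
    have h0 := tendsto_itU U (fun j k => (∑ p ∈ m j, (B (inL E (x * p.1)) (inL E p.2) -
        B (inL E p.1) (inL E (p.2 * x)))) + (B (inL E (x - x * ee (m j))) (1 - inL E (ee (m k))) -
          ((B (1 - inL E (ee (m j)))).comp (inL E)) (x - ee (m k) * x)))
      (fun k => 0 + (0 - g (x - ee (m k) * x))) 0 (fun k => ?_) ?_
    · exact h0.congr fun p => (hcalc p.1 p.2).symm
    · refine Tendsto.add ?_ (Tendsto.sub ?_ (hg _))
      · have h1 := hm.comm (((ContinuousLinearMap.compL ℂ E (WithLp 1 (Unitization ℂ E)) ℂ).flip (inL E)).comp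
          (B.comp (inL E))) x
        exact h1
      · have h1 := hr ((B.flip (1 - inL E (ee (m k)))).comp (inL E)) x
        have h2 := (tendsto_const_nhds (x := ((B.flip (1 - inL E (ee (m k)))).comp (inL E)) x)).sub h1
        rw [sub_self] at h2
        refine h2.congr fun j => ?_
        rw [← map_sub]
        rfl
    · have h1 := (tendsto_const_nhds (x := g x) (f := (U : Filter J))).sub (hl g x)
      rw [sub_self] at h1
      have h2 := (tendsto_const_nhds (x := (0 : ℂ)) (f := (U : Filter J))).sub h1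
      have h3 := (tendsto_const_nhds (x := (0 : ℂ)) (f := (U : Filter J))).add h2
      rw [sub_zero, add_zero] at h3
      refine h3.congr fun k => ?_
      rw [map_sub]
  · have hcalc : ∀ j k, ψ (∑ p ∈ mm (m j) (m k), p.1 * p.2) =
        ψ 1 - ψ (inL E (ee (m k))) + (ψ.comp (inL E)) (ee (m j) * ee (m k)) := by
      intro j k
      have e1 : ∑ p ∈ mm (m j) (m k), p.1 * p.2 = (1 - inL E (ee (m j))) * (1 - inL E (ee (m k))) +
          ∑ p ∈ m j, inL E p.1 * inL E p.2 := by
        rw [mm, Finset.sum_cons, Finset.sum_map]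
        rfl
      have e2 : ∑ p ∈ m j, inL E p.1 * inL E p.2 = inL E (ee (m j)) := by
        rw [ee, map_sum]
        exact Finset.sum_congr rfl fun p _ => (inL_mul _ _).symm
      have e3 : (1 - inL E (ee (m j))) * (1 - inL E (ee (m k))) + inL E (ee (m j)) =
          1 - inL E (ee (m k)) + inL E (ee (m j) * ee (m k)) := by
        rw [inL_mul]
        noncomm_ring
      rw [e1, e2, e3, map_add, map_sub]
      rfl
    have h0 := tendsto_itU U (fun j k => ψ 1 - ψ (inL E (ee (m k))) + (ψ.comp (inL E)) (ee (m j) * ee (m k)))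
      (fun k => ψ 1 - ψ (inL E (ee (m k))) + (ψ.comp (inL E)) (ee (m k))) (ψ 1) (fun k => ?_) ?_
    · exact h0.congr fun p => (hcalc p.1 p.2).symm
    · exact tendsto_const_nhds.add (hl (ψ.comp (inL E)) (ee (m k)))
    · refine tendsto_const_nhds.congr fun k => ?_
      show ψ 1 = ψ 1 - ψ (inL E (ee (m k))) + ψ (inL E (ee (m k)))
      rw [sub_add_cancel]

end

end Pool.Agent.Y464.AM
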