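import Mathlib
import Pool.Agent.Helper133.CD.Stmt
import Pool.Agent.Helper832.GDStmt

set_option autoImplicit false

/-! Comparison of the two definitions of the global dimension and the bidimension. -/

namespace Pool.Agent.Y464.AM

open Pool.Agent.Helper832

variable {A : Type} [NonUnitalNormedRing A] [NormedSpace ℂ A]

/-- the same module -/
def toGS (X : Helper133.CD.LMod A) : GS.LMod A where
  carrier := X.carrier
  act := X.act
  bdd := X.bdd
  act_mul := X.act_mul

/-- the same module -/
def toCD (X : GS.LMod A) : Helper133.CD.LMod A where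
  carrier := X.carrier
  act := X.act
  bdd := X.bdd
  act_mul := X.act_mul

/-- the same bimodule -/
def toGSB (X : Helper133.CD.BMod A) : GS.BMod A where
  carrier := X.carrier
  left := X.left
  right := X.right
  left_bdd := X.left_bdd
  right_bdd := X.right_bdd
  left_mul := X.left_mul
  right_mul := X.right_mul
  left_right := X.left_right

/-- the same bimodule -/
def toCDB (X : GS.BMod A) : Helper133.CD.BMod A where
  carrier := X.carrier
  left := X.left
  right := X.right
  left_bdd := X.left_bdd
  right_bdd := X.right_bdd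
  left_mul := X.left_mul
  right_mul := X.right_mul
  left_right := X.left_right

theorem proj (P : Helper133.CD.LMod A) (h : P.Projective) : (toGS P).Projective := by
  intro Y φ hφ ha
  obtain ⟨ψ, h1, h2⟩ := h (toCD Y) P φ (fun x => x) hφ ha ⟨IsBoundedLinearMap.id, fun _ _ => rfl⟩
  exact ⟨ψ, h1, h2⟩

theorem projB (P : Helper133.CD.BMod A) (h : P.Projective) : (toGSB P).Projective := by
  intro Y φ hφ ha
  obtain ⟨ψ, h1, h2⟩ := h (toCDB Y) P φ (fun x => x) hφ ha
    ⟨IsBoundedLinearMap.id, fun _ _ => rfl, fun _ _ => rfl⟩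
  exact ⟨ψ, h1, h2⟩

theorem hasRes (X : GS.LMod A) (n : ℕ) (h : (toCD X).HasResolution n) : X.HasResolution n := by
  obtain ⟨R, hR⟩ := h
  exact ⟨{ P := fun i => toGS (R.P i)
           ε := R.ε
           d := R.d
           s' := R.s'
           s := R.s
           projective := fun i => proj _ (R.projective i)
           ε_hom := R.ε_hom
           d_hom := R.d_hom
           s'_bdd := R.s'_bdd
           s_bdd := R.s_bdd
           ε_d := R.ε_d
           d_d := R.d_d
           ε_s := R.ε_s
           h_zero := R.h_zero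
           h_succ := R.h_succ }, hR⟩

theorem hasResB (X : GS.BMod A) (n : ℕ) (h : (toCDB X).HasResolution n) : X.HasResolution n := by
  obtain ⟨R, hR⟩ := h
  exact ⟨{ P := fun i => toGSB (R.P i)
           ε := R.ε
           d := R.d
           s' := R.s'
           s := R.s
           projective := fun i => projB _ (R.projective i)
           ε_hom := R.ε_hom
           d_hom := R.d_hom
           s'_bdd := R.s'_bdd
           s_bdd := R.s_bdd
           ε_d := R.ε_d
           d_d := R.d_d
           ε_s := R.ε_s
           h_zero := R.h_zero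
           h_succ := R.h_succ }, hR⟩

theorem dh_le (X : GS.LMod A) : X.dh ≤ (toCD X).dh := by
  unfold GS.LMod.dh Helper133.CD.LMod.dh
  exact le_iInf fun n => le_iInf fun hn => iInf_le_of_le n (iInf_le_of_le (hasRes X n hn) le_rfl)

theorem dh_leB (X : GS.BMod A) : X.dh ≤ (toCDB X).dh := by
  unfold GS.BMod.dh Helper133.CD.BMod.dh
  exact le_iInf fun n => le_iInf fun hn => iInf_le_of_le n (iInf_le_of_le (hasResB X n hn) le_rfl)

theorem dg_le (A : Type) [NonUnitalNormedRing A] [NormedSpace ℂ A] : GS.dg A ≤ Helper133.CD.dg A := by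
  unfold GS.dg Helper133.CD.dg
  exact iSup_le fun X => (dh_le X).trans (le_iSup (fun Y : Helper133.CD.LMod A => Y.dh) (toCD X))

theorem db_le (A : Type) [NonUnitalNormedRing A] [NormedSpace ℂ A] [IsScalarTower ℂ A A] [SMulCommClass ℂ A A]
    [CompleteSpace A] : GS.db A ≤ Helper133.CD.db A := by
  unfold GS.db Helper133.CD.db
  exact dh_leB (GS.plusBMod A)

theorem transfer {A : Type} [NonUnitalNormedRing A] [NormedSpace ℂ A] [IsScalarTower ℂ A A] [SMulCommClass ℂ A A]
    [CompleteSpace A] (h : GS.dg A = ⊤ ∧ GS.db A = ⊤) :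
    Helper133.CD.dg A = ⊤ ∧ Helper133.CD.db A = ⊤ := by
  have h1 := dg_le A
  have h2 := db_le A
  rw [h.1, top_le_iff] at h1
  rw [h.2, top_le_iff] at h2
  exact ⟨h1, h2⟩

end Pool.Agent.Y464.AM
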